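import Mathlib
import Pool.Agent.H94.IC.Targets3

/-!
# Insulating cracks, module NJB: bounds for the parts of the noise
-/

open MeasureTheory Set Filter Topology Metric
open scoped ENNReal NNReal ContDiff RealInnerProductSpace

namespace Pool.Agent.H65.IC

open Pool.Agent.H94.IC

/-- scaled and translated function -/
noncomputable def sc (s : ℝ) (p : E) {F : Type*} (f : E → F) (x : E) : F := f (s⁻¹ • (x - p))

theorem fderiv_sc {F : Type*} [NormedAddCommGroup F] [NormedSpace ℝ F] (s : ℝ) (p : E) (f : E → F) (x : E) :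
    fderiv ℝ (sc s p f) x = s⁻¹ • fderiv ℝ f (s⁻¹ • (x - p)) := by
  have h1 : sc s p f = fun x => (fun y => f (s⁻¹ • y)) (x - p) := rfl
  rw [h1, fderiv_comp_sub (f := fun y => f (s⁻¹ • y)) p]
  have h2 := fderiv_comp_smul (𝕜 := ℝ) (f := f) (x := x - p) s⁻¹
  exact h2

theorem pd_sc (s : ℝ) (p : E) (f : E → ℝ) (k : Fin 3) :
    pd k (sc s p f) = fun x => s⁻¹ * sc s p (pd k f) x := by
  funext x
  unfold pd
  rw [fderiv_sc]
  simp [sc]

theorem gr_sc (s : ℝ) (p : E) (f : E → ℝ) (x : E) :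
    gr (sc s p f) x = s⁻¹ • gr f (s⁻¹ • (x - p)) := by
  unfold gr gradient
  rw [fderiv_sc]
  simp

/-- the smooth region of the scaled function -/
theorem sc_contDiffAt {F : Type*} [NormedAddCommGroup F] [NormedSpace ℝ F] {s : ℝ} {p : E} {f : E → F} {x : E}
    {n : WithTop ℕ∞} (hf : ContDiffAt ℝ n f (s⁻¹ • (x - p))) : ContDiffAt ℝ n (sc s p f) x := by
  have h : ContDiffAt ℝ n (fun x : E => s⁻¹ • (x - p)) x := by fun_prop
  exact ContDiffAt.comp x hf h


theorem ss_pos (j : ℕ) : 0 < ss j := by unfold ss; positivity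

theorem ee_pos (j : ℕ) : 0 < ee j := by unfold ee; positivity

/-- algebra of harmonic functions -/
theorem harm_sum {ι : Type*} (F : Finset ι) (O : Set E) (hO : IsOpen O) (f : ι → E → ℝ) (a : ℝ)
    (h : ∀ i ∈ F, Harm O (f i)) : Harm O (fun x => a * ∑ i ∈ F, f i x) := by
  have hat : ∀ i ∈ F, ∀ x ∈ O, ContDiffAt ℝ ∞ (f i) x := fun i hi x hx =>
    (h i hi).1.contDiffAt (hO.mem_nhds hx)
  have hpd : ∀ i ∈ F, ∀ k, ∀ x ∈ O, DifferentiableAt ℝ (pd k (f i)) x := by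
    intro i hi k x hx
    have h1 : ContDiffAt ℝ ∞ (fderiv ℝ (f i)) x :=
      (hat i hi x hx).fderiv_right (m := ∞) (by simp)
    have h2 : DifferentiableAt ℝ (fderiv ℝ (f i)) x := h1.differentiableAt (by simp)
    exact h2.clm_apply (differentiableAt_const _)
  have h1 : ∀ k, ∀ x ∈ O, pd k (fun x => a * ∑ i ∈ F, f i x) x = a * ∑ i ∈ F, pd k (f i) x := by
    intro k x hx
    unfold pd
    have hd : ∀ i ∈ F, DifferentiableAt ℝ (f i) x := fun i hi => (hat i hi x hx).differentiableAt (by simp)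
    rw [fderiv_const_mul (DifferentiableAt.fun_sum hd), fderiv_fun_sum hd]
    simp
  refine ⟨?_, ?_⟩
  · refine contDiffOn_const.mul (ContDiffOn.sum fun i hi => (h i hi).1)
  · intro x hx
    have h2 : ∀ k, pd k (pd k (fun x => a * ∑ i ∈ F, f i x)) x = a * ∑ i ∈ F, pd k (pd k (f i)) x := by
      intro k
      have h3 : pd k (fun x => a * ∑ i ∈ F, f i x) =ᶠ[𝓝 x] fun x => a * ∑ i ∈ F, pd k (f i) x := by
        filter_upwards [hO.mem_nhds hx] with y hy
        exact h1 k y hy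
      have h4 : pd k (pd k (fun x => a * ∑ i ∈ F, f i x)) x = pd k (fun x => a * ∑ i ∈ F, pd k (f i) x) x := by
        unfold pd at h3 ⊢
        rw [h3.fderiv_eq]
      rw [h4]
      have hd : ∀ i ∈ F, DifferentiableAt ℝ (pd k (f i)) x := fun i hi => hpd i hi k x hx
      show fderiv ℝ (fun x => a * ∑ i ∈ F, pd k (f i) x) x (ev k) = _
      rw [fderiv_const_mul (DifferentiableAt.fun_sum hd), fderiv_fun_sum hd]
      simp [pd]
    simp_rw [h2]
    rw [← Finset.mul_sum, Finset.sum_comm, Finset.sum_eq_zero (fun i hi => (h i hi).2 x hx), mul_zero]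

theorem harm_sc (s : ℝ) (p : E) (f : E → ℝ) (O O' : Set E) (hO' : IsOpen O') (h : Harm O' f)
    (hm : ∀ x ∈ O, s⁻¹ • (x - p) ∈ O') : Harm O (sc s p f) := by
  refine ⟨?_, ?_⟩
  · intro x hx
    exact (sc_contDiffAt (h.1.contDiffAt (hO'.mem_nhds (hm x hx)))).contDiffWithinAt
  · intro x hx
    have h1 : ∀ k, pd k (pd k (sc s p f)) x = s⁻¹ * (s⁻¹ * pd k (pd k f) (s⁻¹ • (x - p))) := by
      intro k
      rw [pd_sc]
      have h2 : pd k (fun x => s⁻¹ * sc s p (pd k f) x) x = s⁻¹ * pd k (sc s p (pd k f)) x := by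
        unfold pd
        by_cases hd : DifferentiableAt ℝ (sc s p (fun x => fderiv ℝ f x (ev k))) x
        · rw [fderiv_const_mul hd]
          simp
        · have h3 : DifferentiableAt ℝ (pd k f) (s⁻¹ • (x - p)) := by
            have h1 : ContDiffAt ℝ ∞ (fderiv ℝ f) (s⁻¹ • (x - p)) :=
              ((h.1.contDiffAt (hO'.mem_nhds (hm x hx)))).fderiv_right (m := ∞) (by simp)
            exact (h1.differentiableAt (by simp)).clm_apply (differentiableAt_const _)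
          exfalso
          apply hd
          have h4 : DifferentiableAt ℝ (fun x : E => s⁻¹ • (x - p)) x := by fun_prop
          exact h3.comp x h4
      rw [h2, pd_sc]
      rfl
    simp_rw [h1]
    rw [← Finset.mul_sum, ← Finset.mul_sum, h.2 _ (hm x hx)]
    simp

theorem norm_y (j : ℕ) (x q : E) : ‖(ss j)⁻¹ • (x - q)‖ = dist x q / ss j := by
  rw [norm_smul, norm_inv, Real.norm_of_nonneg (ss_pos j).le, dist_eq_norm]
  ring

theorem far_half {Ω : Set E} {c : ℝ} {j1 : ℕ} {Z : ℕ → Finset (Fin 3 → ℤ)} {P : ℕ → (Fin 3 → ℤ) → E}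
    (hΩ : Dom Ω) (hP : Poles Ω c j1 Z P) {j : ℕ} (hj : j1 ≤ j) {x : E}
    (hx : infDist x (closure Ω) < c * ss j / 2) {κ : Fin 3 → ℤ} (hκ : κ ∈ Z j) :
    c / 2 * ss j ≤ dist x (P j κ) := by
  have hne : (closure Ω).Nonempty := hΩ.conn.nonempty.closure
  obtain ⟨y, hy, hxy⟩ := (infDist_lt_iff hne).1 hx
  have h1 := hP.far j hj κ hκ y hy
  have h2 := dist_triangle y x (P j κ)
  rw [dist_comm y x] at h2
  linarith

theorem sum_four {c C2 : ℝ} (hL : ∀ (y : E) (T : ℝ) (F : Finset (Fin 3 → ℤ))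
    (d : (Fin 3 → ℤ) → ℝ), c / 2 ≤ T → (∀ κ ∈ F, T ≤ d κ ∧ ‖y - lp κ‖ - 3 ≤ d κ) →
      ∑ κ ∈ F, (d κ)⁻¹ ^ 4 ≤ C2 / T)
    {Ω : Set E} {j1 : ℕ} {Z : ℕ → Finset (Fin 3 → ℤ)} {P : ℕ → (Fin 3 → ℤ) → E}
    (hP : Poles Ω c j1 Z P) {j : ℕ} (hj : j1 ≤ j) (x : E) (F : Finset (Fin 3 → ℤ)) (hF : F ⊆ Z j) (T : ℝ)
    (hT : c / 2 ≤ T) (hd : ∀ κ ∈ F, T * ss j ≤ dist x (P j κ)) :
    ∑ κ ∈ F, (‖(ss j)⁻¹ • (x - P j κ)‖)⁻¹ ^ 4 ≤ C2 / T := by
  have hs := ss_pos j
  refine hL ((ss j)⁻¹ • x) T F (fun κ => ‖(ss j)⁻¹ • (x - P j κ)‖) hT ?_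
  intro κ hκ
  refine ⟨?_, ?_⟩
  · show T ≤ ‖(ss j)⁻¹ • (x - P j κ)‖
    rw [norm_y, le_div_iff₀ hs]
    exact hd κ hκ
  · show ‖(ss j)⁻¹ • x - lp κ‖ - 3 ≤ ‖(ss j)⁻¹ • (x - P j κ)‖
    have h1 : (ss j)⁻¹ • x - lp κ = (ss j)⁻¹ • (x - P j κ) + (ss j)⁻¹ • (P j κ - ss j • lp κ) := by
      rw [← smul_add, sub_add_sub_cancel, smul_sub, smul_smul, inv_mul_cancel₀ hs.ne', one_smul]
    have h2 : ‖(ss j)⁻¹ • (P j κ - ss j • lp κ)‖ ≤ 2 := by
      rw [norm_y, div_le_iff₀ hs]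
      exact hP.near j hj κ (hF hκ)
    have h3 := norm_add_le ((ss j)⁻¹ • (x - P j κ)) ((ss j)⁻¹ • (P j κ - ss j • lp κ))
    rw [← h1] at h3
    linarith

/-- powers of inverse distances -/
theorem pow_bound {c d : ℝ} {k m : ℕ} (hc : 0 < c) (hc1 : c ≤ 1) (hd : c / 2 ≤ d) (hm : 4 ≤ m) (hmk : m ≤ k + 4) :
    d⁻¹ ^ m ≤ (2 / c) ^ k * d⁻¹ ^ 4 := by
  have hd0 : 0 < d := lt_of_lt_of_le (by positivity) hd
  obtain ⟨i, rfl⟩ := Nat.exists_eq_add_of_le hm
  have h1 : d⁻¹ ≤ 2 / c := by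
    have := inv_anti₀ (by positivity) hd
    rwa [inv_div] at this
  have h2 : (1 : ℝ) ≤ 2 / c := by
    rw [le_div_iff₀ hc]
    linarith
  have h3 : d⁻¹ ^ i ≤ (2 / c) ^ k := by
    calc d⁻¹ ^ i ≤ (2 / c) ^ i := pow_le_pow_left₀ (by positivity) h1 i
      _ ≤ (2 / c) ^ k := pow_le_pow_right₀ h2 (by omega)
  rw [pow_add, mul_comm]
  exact mul_le_mul_of_nonneg_right h3 (by positivity)

/-- difference of lattice points in the same class -/
theorem lp_sep {K : ℕ} {g : Fin 3 → ZMod K} {κ κ0 : Fin 3 → ℤ} (h : cls K g κ) (h0 : cls K g κ0) (hne : κ ≠ κ0) :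
    (K : ℝ) / 2 ≤ ‖lp κ - lp κ0‖ := by
  obtain ⟨i, hi⟩ := Function.ne_iff.1 hne
  have h1 : ((κ i - κ0 i : ℤ) : ZMod K) = 0 := by
    push_cast
    rw [h i, h0 i, sub_self]
  rw [ZMod.intCast_zmod_eq_zero_iff_dvd] at h1
  have h2 : (K : ℤ) ≤ |κ i - κ0 i| := by
    refine Int.le_of_dvd (abs_pos.2 (sub_ne_zero.2 hi)) ?_
    rwa [dvd_abs]
  have h3 : ‖(lp κ - lp κ0) i‖ ≤ ‖lp κ - lp κ0‖ := PiLp.norm_apply_le _ i
  have h4 : (lp κ - lp κ0) i = ((κ i - κ0 i : ℤ) : ℝ) / 2 := by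
    simp [Pool.Agent.H94.IC.lp]
    ring
  rw [h4, Real.norm_eq_abs, abs_div, abs_two] at h3
  have h5 : ((K : ℤ) : ℝ) ≤ ((|κ i - κ0 i| : ℤ) : ℝ) := by exact_mod_cast h2
  rw [Int.cast_abs, Int.cast_natCast] at h5
  linarith

theorem differentiableAt_gr {w : E} {k : ℕ} (hH : Harm {0}ᶜ (HH w k)) {y : E} (hy : y ≠ 0) :
    DifferentiableAt ℝ (gr (HH w k)) y := by
  have h1 : ContDiffAt ℝ ∞ (HH w k) y := hH.1.contDiffAt (isOpen_compl_singleton.mem_nhds hy)
  have h2 : ContDiffAt ℝ ∞ (fderiv ℝ (HH w k)) y := h1.fderiv_right (m := ∞) (by simp)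
  have h3 : DifferentiableAt ℝ (fderiv ℝ (HH w k)) y := h2.differentiableAt (by simp)
  have h4 : gr (HH w k) = fun y => (InnerProductSpace.toDual ℝ E).symm (fderiv ℝ (HH w k) y) := rfl
  rw [h4]
  exact ((InnerProductSpace.toDual ℝ E).symm.toContinuousLinearEquiv.differentiableAt.comp y h3)

theorem gr_sum {ι : Type*} (F : Finset ι) (f : ι → E → ℝ) (a : ℝ) (x : E)
    (h : ∀ i ∈ F, DifferentiableAt ℝ (f i) x) :
    gr (fun x => a * ∑ i ∈ F, f i x) x = a • ∑ i ∈ F, gr (f i) x := by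
  unfold gr gradient
  rw [fderiv_const_mul (DifferentiableAt.fun_sum h), fderiv_fun_sum h]
  simp

/-- NJB -/
theorem njb (h_MUL : T_MUL) (h_LAT : T_LAT) : T_NJB := by
  intro Ω c j1 Z P w k hΩ hP hc hc1 hk
  obtain ⟨hH, C1, hC1⟩ := h_MUL w k
  obtain ⟨C2, hC2, hL⟩ := h_LAT (c / 2) (by positivity)
  obtain ⟨R, hR⟩ := hP.bdd
  obtain ⟨R', hR'⟩ : ∃ R' : ℝ, ∀ x ∈ closure Ω, ‖x‖ ≤ R' := by
    obtain ⟨R', h⟩ := (hΩ.bdd.closure).subset_closedBall (0 : E)
    exact ⟨R', fun x hx => by simpa using h hx⟩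
  obtain ⟨x00, hx00⟩ : (closure Ω).Nonempty := hΩ.conn.nonempty.closure
  have hR'0 : 0 ≤ R' := le_trans (norm_nonneg _) (hR' _ hx00)
  set R0 : ℝ := R' + 1 + |R| with hR0
  have hR0p : 0 < R0 := by positivity
  set Q : ℝ := (|C1| + 1) * (2 / c) ^ k * C2 with hQ
  have hQp : 0 < Q := by positivity
  have h2c : (1 : ℝ) ≤ 2 / c := by
    rw [le_div_iff₀ hc]
    linarith
  refine ⟨40 * (1 + R0) * Q * (2 / c), by positivity, ?_⟩
  intro K g j hK hj
  have hs := ss_pos j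
  have he := ee_pos j
  have hs1 : ss j ≤ 1 := by
    unfold ss
    exact pow_le_one₀ (by norm_num) (by norm_num)
  classical
  set F : Finset (Fin 3 → ℤ) := (Z j).filter (cls K g) with hF
  have hFZ : F ⊆ Z j := Finset.filter_subset _ _
  have hU : Uj Z P K g w k j = fun x => (ee j * ss j) * ∑ κ ∈ F, sc (ss j) (P j κ) (HH w k) x := rfl
  set A : Set E := {x | infDist x (closure Ω) < c * ss j / 2} with hA
  have hAo : IsOpen A := isOpen_lt (continuous_infDist_pt _) continuous_const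
  -- the general sum bound
  have hsum : ∀ (x : E) (G : Finset (Fin 3 → ℤ)) (T : ℝ), G ⊆ Z j → c / 2 ≤ T →
      (∀ κ ∈ G, T * ss j ≤ dist x (P j κ)) → ∀ m, 4 ≤ m → m ≤ k + 4 →
      ∑ κ ∈ G, (|C1| + 1) * (‖(ss j)⁻¹ • (x - P j κ)‖⁻¹) ^ m ≤ Q / T := by
    intro x G T hG hT hd m hm hmk
    have h1 := sum_four hL hP hj x G hG T hT hd
    calc ∑ κ ∈ G, (|C1| + 1) * (‖(ss j)⁻¹ • (x - P j κ)‖⁻¹) ^ m
        ≤ ∑ κ ∈ G, ((|C1| + 1) * (2 / c) ^ k) * (‖(ss j)⁻¹ • (x - P j κ)‖⁻¹) ^ 4 := by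
          refine Finset.sum_le_sum fun κ hκ => ?_
          have h2 : c / 2 ≤ ‖(ss j)⁻¹ • (x - P j κ)‖ := by
            rw [norm_y, le_div_iff₀ hs]
            exact le_trans (mul_le_mul_of_nonneg_right hT hs.le) (hd κ hκ)
          rw [mul_assoc]
          exact mul_le_mul_of_nonneg_left (pow_bound hc hc1 h2 hm hmk) (by positivity)
      _ = ((|C1| + 1) * (2 / c) ^ k) * ∑ κ ∈ G, (‖(ss j)⁻¹ • (x - P j κ)‖⁻¹) ^ 4 := by
          rw [Finset.mul_sum]
      _ ≤ ((|C1| + 1) * (2 / c) ^ k) * (C2 / T) := mul_le_mul_of_nonneg_left h1 (by positivity)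
      _ = Q / T := by rw [hQ]; ring
  have hfar : ∀ x ∈ A, ∀ κ ∈ Z j, c / 2 * ss j ≤ dist x (P j κ) := fun x hx κ hκ =>
    far_half hΩ hP hj hx hκ
  have hne : ∀ x ∈ A, ∀ κ ∈ Z j, (ss j)⁻¹ • (x - P j κ) ≠ 0 := by
    intro x hx κ hκ h0
    have h1 := hfar x hx κ hκ
    have h2 : ‖(ss j)⁻¹ • (x - P j κ)‖ = 0 := by rw [h0, norm_zero]
    rw [norm_y, div_eq_zero_iff] at h2
    rcases h2 with h2 | h2
    · rw [h2] at h1
      have : 0 < c / 2 * ss j := by positivity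
      linarith
    · exact hs.ne' h2
  have hdiff : ∀ x ∈ A, ∀ κ ∈ F, DifferentiableAt ℝ (sc (ss j) (P j κ) (HH w k)) x := by
    intro x hx κ hκ
    exact (sc_contDiffAt (hH.1.contDiffAt (isOpen_compl_singleton.mem_nhds
      (hne x hx κ (hFZ hκ))))).differentiableAt (n := ∞) (by simp)
  have hgr : ∀ x ∈ A, gr (Uj Z P K g w k j) x = ee j • ∑ κ ∈ F, gr (HH w k) ((ss j)⁻¹ • (x - P j κ)) := by
    intro x hx
    rw [hU, gr_sum F _ _ x (hdiff x hx)]
    simp_rw [gr_sc]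
    rw [← Finset.smul_sum, smul_smul, mul_assoc, mul_inv_cancel₀ hs.ne', mul_one]
  have hgb : ∀ x ∈ A, ∀ G : Finset (Fin 3 → ℤ), G ⊆ Z j → ∀ T, c / 2 ≤ T →
      (∀ κ ∈ G, T * ss j ≤ dist x (P j κ)) →
      ‖ee j • ∑ κ ∈ G, gr (HH w k) ((ss j)⁻¹ • (x - P j κ))‖ ≤ ee j * (Q / T) := by
    intro x hx G hG T hT hd
    rw [norm_smul, Real.norm_of_nonneg he.le]
    refine mul_le_mul_of_nonneg_left ?_ he.le
    refine le_trans (norm_sum_le _ _) (le_trans (Finset.sum_le_sum fun κ hκ => ?_)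
      (hsum x G T hG hT hd (k + 2) (by omega) (by omega)))
    refine le_trans (hC1 _ (hne x hx κ (hG hκ))).2.1 ?_
    exact mul_le_mul_of_nonneg_right (by linarith [le_abs_self C1]) (by positivity)
  have hconst : Q * (2 / c) ≤ 40 * (1 + R0) * Q * (2 / c) := by
    have : (1 : ℝ) ≤ 40 * (1 + R0) := by linarith
    calc Q * (2 / c) = 1 * (Q * (2 / c)) := by ring
      _ ≤ (40 * (1 + R0)) * (Q * (2 / c)) := mul_le_mul_of_nonneg_right this (by positivity)
      _ = _ := by ring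
  have hQc : Q / (c / 2) = Q * (2 / c) := by field_simp
  refine ⟨?_, ?_, ?_, ?_⟩
  · intro x hx
    have hxA : x ∈ A := hx
    have hdF : ∀ κ ∈ F, c / 2 * ss j ≤ dist x (P j κ) := fun κ hκ => hfar x hxA κ (hFZ hκ)
    refine ⟨?_, ?_, ?_⟩
    · have hxR : ‖x‖ ≤ R' + 1 := by
        obtain ⟨y, hy, hxy⟩ := (infDist_lt_iff hΩ.conn.nonempty.closure).1 hx
        have h1 := norm_le_norm_add_norm_sub' x y
        rw [← dist_eq_norm] at h1
        have h2 := hR' y hy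
        have h3 : c * ss j / 2 ≤ 1 := by
          have : c * ss j ≤ 1 := mul_le_one₀ hc1 hs.le hs1
          linarith
        linarith
      have hterm : ∀ κ ∈ F, ‖HH w k ((ss j)⁻¹ • (x - P j κ))‖ ≤
          (R0 / ss j) * ((|C1| + 1) * (‖(ss j)⁻¹ • (x - P j κ)‖⁻¹) ^ (k + 2)) := by
        intro κ hκ
        have h0 := hne x hxA κ (hFZ hκ)
        have h1 := (hC1 _ h0).1
        have hn : 0 < ‖(ss j)⁻¹ • (x - P j κ)‖ := norm_pos_iff.2 h0
        have h2 : ‖(ss j)⁻¹ • (x - P j κ)‖ ≤ R0 / ss j := by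
          rw [norm_y, div_le_div_iff_of_pos_right hs, dist_eq_norm]
          have h3 := norm_sub_le x (P j κ)
          have h4 := hR j hj κ (hFZ hκ)
          have h5 := le_abs_self R
          rw [hR0]
          linarith
        rw [Real.norm_eq_abs]
        refine le_trans h1 ?_
        calc C1 * (‖(ss j)⁻¹ • (x - P j κ)‖⁻¹) ^ (k + 1)
            ≤ (|C1| + 1) * (‖(ss j)⁻¹ • (x - P j κ)‖⁻¹) ^ (k + 1) :=
              mul_le_mul_of_nonneg_right (by linarith [le_abs_self C1]) (by positivity)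
          _ = ‖(ss j)⁻¹ • (x - P j κ)‖ * ((|C1| + 1) * (‖(ss j)⁻¹ • (x - P j κ)‖⁻¹) ^ (k + 2)) := by
              have h9 := mul_inv_cancel₀ hn.ne'
              rw [pow_succ _ (k + 1)]
              linear_combination (-((|C1| + 1) * (‖(ss j)⁻¹ • (x - P j κ)‖⁻¹) ^ (k + 1))) * h9
          _ ≤ _ := mul_le_mul_of_nonneg_right h2 (by positivity)
      have h6 : ‖∑ κ ∈ F, HH w k ((ss j)⁻¹ • (x - P j κ))‖ ≤ (R0 / ss j) * (Q / (c / 2)) := by
        refine le_trans (norm_sum_le _ _) (le_trans (Finset.sum_le_sum hterm) ?_)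
        rw [← Finset.mul_sum]
        exact mul_le_mul_of_nonneg_left (hsum x F (c / 2) hFZ le_rfl hdF (k + 2) (by omega) (by omega))
          (by positivity)
      have h7 : Uj Z P K g w k j x = (ee j * ss j) * ∑ κ ∈ F, HH w k ((ss j)⁻¹ • (x - P j κ)) := rfl
      rw [h7, ← Real.norm_eq_abs, norm_mul, Real.norm_of_nonneg (by positivity)]
      calc ee j * ss j * ‖∑ κ ∈ F, HH w k ((ss j)⁻¹ • (x - P j κ))‖
          ≤ ee j * ss j * ((R0 / ss j) * (Q / (c / 2))) := mul_le_mul_of_nonneg_left h6 (by positivity)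
        _ = (R0 * Q * (2 / c)) * ee j := by
            rw [hQc]
            field_simp
        _ ≤ (40 * (1 + R0) * Q * (2 / c)) * ee j := by
            refine mul_le_mul_of_nonneg_right ?_ he.le
            refine mul_le_mul_of_nonneg_right ?_ (by positivity)
            refine mul_le_mul_of_nonneg_right ?_ hQp.le
            linarith
    · rw [hgr x hxA]
      refine le_trans (hgb x hxA F hFZ (c / 2) le_rfl hdF) ?_
      rw [hQc, mul_comm]
      exact mul_le_mul_of_nonneg_right hconst he.le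
    · have h1 : gr (Uj Z P K g w k j) =ᶠ[𝓝 x]
          fun x => ee j • ∑ κ ∈ F, sc (ss j) (P j κ) (gr (HH w k)) x := by
        filter_upwards [hAo.mem_nhds hxA] with y hy
        exact hgr y hy
      have h2 : ∀ κ ∈ F, DifferentiableAt ℝ (sc (ss j) (P j κ) (gr (HH w k))) x := by
        intro κ hκ
        have h3 := differentiableAt_gr hH (hne x hxA κ (hFZ hκ))
        have h4 : DifferentiableAt ℝ (fun x : E => (ss j)⁻¹ • (x - P j κ)) x := by fun_prop
        exact h3.comp x h4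
      rw [h1.fderiv_eq, fderiv_fun_const_smul (DifferentiableAt.fun_sum h2), fderiv_fun_sum h2]
      simp_rw [fderiv_sc]
      rw [← Finset.smul_sum, smul_smul, norm_smul, Real.norm_of_nonneg (by positivity)]
      have h5 : ‖∑ κ ∈ F, fderiv ℝ (gr (HH w k)) ((ss j)⁻¹ • (x - P j κ))‖ ≤ Q / (c / 2) := by
        refine le_trans (norm_sum_le _ _) (le_trans (Finset.sum_le_sum fun κ hκ => ?_)
          (hsum x F (c / 2) hFZ le_rfl hdF (k + 3) (by omega) (by omega)))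
        refine le_trans (hC1 _ (hne x hxA κ (hFZ hκ))).2.2 ?_
        exact mul_le_mul_of_nonneg_right (by linarith [le_abs_self C1]) (by positivity)
      calc ee j * (ss j)⁻¹ * ‖∑ κ ∈ F, fderiv ℝ (gr (HH w k)) ((ss j)⁻¹ • (x - P j κ))‖
          ≤ ee j * (ss j)⁻¹ * (Q / (c / 2)) := mul_le_mul_of_nonneg_left h5 (by positivity)
        _ = (Q * (2 / c)) * ee j / ss j := by
            rw [hQc]
            ring
        _ ≤ (40 * (1 + R0) * Q * (2 / c)) * ee j / ss j := by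
            refine div_le_div_of_nonneg_right ?_ hs.le
            exact mul_le_mul_of_nonneg_right hconst he.le
  · intro x T hT hx hd
    have hxA : x ∈ A := hx
    rw [hgr x hxA]
    have hTc : c / 2 ≤ T := by linarith
    refine le_trans (hgb x hxA F hFZ T hTc fun κ hκ => ?_) ?_
    · rw [hF, Finset.mem_filter] at hκ
      exact hd κ hκ.1 hκ.2
    · have hT0 : 0 < T := by linarith
      have h1 : Q ≤ 40 * (1 + R0) * Q * (2 / c) := by
        refine le_trans ?_ hconst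
        calc Q = Q * 1 := by ring
          _ ≤ Q * (2 / c) := mul_le_mul_of_nonneg_left h2c hQp.le
      calc ee j * (Q / T) = Q * ee j / T := by ring
        _ ≤ _ := div_le_div_of_nonneg_right (mul_le_mul_of_nonneg_right h1 he.le) hT0.le
  · intro x κ0 hκ0 hcl hx hd
    have hxA : x ∈ A := hx
    have hκF : κ0 ∈ F := by
      rw [hF, Finset.mem_filter]
      exact ⟨hκ0, hcl⟩
    rw [hgr x hxA, ← smul_sub, ← Finset.sum_erase_eq_sub hκF]
    have hGZ : F.erase κ0 ⊆ Z j := (Finset.erase_subset _ _).trans hFZ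
    have hK0 : (0 : ℝ) < K := by exact_mod_cast hK
    by_cases hK40 : (40 : ℝ) ≤ K
    · have hsep : ∀ κ ∈ F.erase κ0, (K : ℝ) / 4 * ss j ≤ dist x (P j κ) := by
        intro κ hκ
        obtain ⟨hκne, hκF'⟩ := Finset.mem_erase.1 hκ
        rw [hF, Finset.mem_filter] at hκF'
        have h1 := lp_sep hκF'.2 hcl hκne
        have h2 := hP.near j hj κ hκF'.1
        have h3 := hP.near j hj κ0 hκ0
        have h4 : dist (ss j • Pool.Agent.H94.IC.lp κ) (ss j • Pool.Agent.H94.IC.lp κ0)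
            = ss j * ‖Pool.Agent.H94.IC.lp κ - Pool.Agent.H94.IC.lp κ0‖ := by
          rw [dist_eq_norm, ← smul_sub, norm_smul, Real.norm_of_nonneg hs.le]
        have h5 := dist_triangle (ss j • Pool.Agent.H94.IC.lp κ) (P j κ) (ss j • Pool.Agent.H94.IC.lp κ0)
        have h6 := dist_triangle (P j κ) (P j κ0) (ss j • Pool.Agent.H94.IC.lp κ0)
        have h7 := dist_triangle (P j κ) x (P j κ0)
        rw [dist_comm (ss j • Pool.Agent.H94.IC.lp κ) (P j κ)] at h5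
        rw [dist_comm (P j κ) x] at h7
        have h8 : ss j * ((K : ℝ) / 2) ≤ ss j * ‖Pool.Agent.H94.IC.lp κ - Pool.Agent.H94.IC.lp κ0‖ :=
          mul_le_mul_of_nonneg_left h1 hs.le
        nlinarith
      refine le_trans (hgb x hxA _ hGZ ((K : ℝ) / 4) (by linarith) hsep) ?_
      have h1 : 4 * Q ≤ 40 * (1 + R0) * Q * (2 / c) := by
        have h2 : (4 : ℝ) ≤ 40 * (1 + R0) * (2 / c) := by
          have h3 : (40 : ℝ) * 1 ≤ 40 * (1 + R0) * (2 / c) :=
            mul_le_mul (by linarith) h2c (by norm_num) (by positivity)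
          linarith
        calc 4 * Q ≤ (40 * (1 + R0) * (2 / c)) * Q := mul_le_mul_of_nonneg_right h2 hQp.le
          _ = _ := by ring
      calc ee j * (Q / ((K : ℝ) / 4)) = (4 * Q) * ee j / K := by
            field_simp
        _ ≤ _ := div_le_div_of_nonneg_right (mul_le_mul_of_nonneg_right h1 he.le) hK0.le
    · push Not at hK40
      refine le_trans (hgb x hxA _ hGZ (c / 2) le_rfl fun κ hκ => hfar x hxA κ (hGZ hκ)) ?_
      have h1 : Q / (c / 2) ≤ (40 * (1 + R0) * Q * (2 / c)) / K := by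
        rw [hQc, le_div_iff₀ hK0]
        have h2 : (K : ℝ) ≤ 40 * (1 + R0) := by nlinarith
        calc Q * (2 / c) * K ≤ Q * (2 / c) * (40 * (1 + R0)) :=
              mul_le_mul_of_nonneg_left h2 (by positivity)
          _ = _ := by ring
      calc ee j * (Q / (c / 2)) ≤ ee j * ((40 * (1 + R0) * Q * (2 / c)) / K) :=
            mul_le_mul_of_nonneg_left h1 he.le
        _ = _ := by ring
  · show Harm A (Uj Z P K g w k j)
    rw [hU]
    refine harm_sum F A hAo _ _ fun κ hκ => ?_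
    exact harm_sc (ss j) (P j κ) (HH w k) A {0}ᶜ isOpen_compl_singleton hH fun x hx => hne x hx κ (hFZ hκ)

end Pool.Agent.H65.IC
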